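import Pool.Agent.LTG.Grid
import Pool.Agent.LTG.Count
import Pool.Agent.LTD.FinR

set_option autoImplicit false

namespace LTG

open LTD Finset Pool.Agent.MP_4aec10_nt

/-- Almost all `n`-tuples of cells, the `i`-th cell in the `i`-th grid. -/
theorem grid_final (n t : ℕ) : ∃ h : ℕ, 1 ≤ h ∧ ∀ F : IntermediateField ℚ ℂ,
    Algebra.trdeg ℚ F ≤ (t : Cardinal) → ∀ (M₁ M₂ M : ℕ) (x : Fin n → Fin M₁ → ℂ)
      (y : Fin n → Fin M₂ → ℂ) (z : Fin n → ℂ), 1 ≤ M → M ≤ M₁ → M ≤ M₂ → (∀ i, z i ≠ 0) →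
        (∀ i, Sep (x i)) → (∀ i, Sep (y i)) →
        (Set.ncard {c : Fin n → Fin M₁ × Fin M₂ | ¬ AlgebraicIndependent F fun i =>
          Complex.exp (z i * (x i (c i).1 * y i (c i).2))} : ℝ) ≤
          2 * h * n * ((M₁ : ℝ) * M₂) ^ n / (M : ℝ) ^ (1 / (h : ℝ)) := by
  classical
  obtain ⟨h, hh, hfield⟩ := grid_field (t + n)
  refine ⟨h, hh, fun F hF M₁ M₂ M x y z hM hM1 hM2 hz hx hy => ?_⟩
  have hM0 : (0 : ℝ) < M := by exact_mod_cast hM
  have hM1' : (M : ℝ) ≤ M₁ := by exact_mod_cast hM1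
  have hM2' : (M : ℝ) ≤ M₂ := by exact_mod_cast hM2
  have hM10 : (0 : ℝ) < M₁ := by linarith
  have hM20 : (0 : ℝ) < M₂ := by linarith
  have hh0 : (0 : ℝ) < h := by exact_mod_cast hh
  have hM1r : (1 : ℝ) ≤ M := by exact_mod_cast hM
  set P : ℝ := (M : ℝ) ^ (1 / (h : ℝ)) with hP
  have hP0 : 0 < P := Real.rpow_pos_of_pos hM0 _
  have hPM : P ≤ M := by
    calc P ≤ (M : ℝ) ^ (1 : ℝ) := by
          refine Real.rpow_le_rpow_of_exponent_le hM1r ?_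
          rw [div_le_one hh0]
          exact_mod_cast hh
      _ = M := Real.rpow_one _
  set B0 : ℝ := h * M₁ + h * M₂ * (M₁ : ℝ) ^ (1 - 1 / (h : ℝ)) with hB0
  have hB0nn : 0 ≤ B0 := by positivity
  have hB0le : B0 ≤ 2 * h * (M₁ * M₂) / P := by
    rw [le_div_iff₀ hP0, hB0]
    have h1 : (h : ℝ) * M₁ * P ≤ h * (M₁ * M₂) := by
      have : P ≤ M₂ := hPM.trans hM2'
      nlinarith [mul_le_mul_of_nonneg_left this (mul_pos hh0 hM10).le]
    have h2 : (M₁ : ℝ) ^ (1 - 1 / (h : ℝ)) * P ≤ M₁ := by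
      calc (M₁ : ℝ) ^ (1 - 1 / (h : ℝ)) * P
          ≤ (M₁ : ℝ) ^ (1 - 1 / (h : ℝ)) * (M₁ : ℝ) ^ (1 / (h : ℝ)) := by
            refine mul_le_mul_of_nonneg_left ?_ (by positivity)
            exact Real.rpow_le_rpow hM0.le hM1' (by positivity)
        _ = M₁ := by
            rw [← Real.rpow_add hM10]
            simp
    have h3 : (h : ℝ) * M₂ * (M₁ : ℝ) ^ (1 - 1 / (h : ℝ)) * P ≤ h * (M₁ * M₂) := by
      have := mul_le_mul_of_nonneg_left h2 (mul_pos hh0 hM20).le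
      nlinarith
    nlinarith
  -- extend the families to all natural indices
  set f : ℕ → Fin M₁ × Fin M₂ → ℂ := fun j c =>
    if hj : j < n then Complex.exp (z ⟨j, hj⟩ * (x ⟨j, hj⟩ c.1 * y ⟨j, hj⟩ c.2)) else 0 with hf
  have hfi : ∀ (i : Fin n) (c : Fin M₁ × Fin M₂),
      f (Fin.val i) c = Complex.exp (z i * (x i c.1 * y i c.2)) := by
    intro i c
    simp only [hf, i.2, dif_pos]
  have hcount := count_dep' (E := Fin M₁ × Fin M₂) Set.univ Set.finite_univ n f (t + n) ⌊B0⌋₊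
    (fun j hj F' hF' _ => by
      refine Nat.le_floor ?_
      have hzx : Sep fun k => z ⟨j, hj⟩ * x ⟨j, hj⟩ k := sep_smul _ _ (hz _) (hx _)
      have h1 := hfield F' hF' M₁ M₂ (fun k => z ⟨j, hj⟩ * x ⟨j, hj⟩ k) (y ⟨j, hj⟩) (by omega)
        hzx (hy _)
      refine le_trans (le_of_eq ?_) h1
      congr 2
      ext c
      simp only [Set.mem_univ, true_and, Set.mem_ofPred_eq, hf, hj, dif_pos, mul_assoc])
    n t F le_rfl hF (by omega)
  have hX : (Set.univ : Set (Fin M₁ × Fin M₂)).ncard = M₁ * M₂ := by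
    rw [Set.ncard_univ, Nat.card_prod, Nat.card_fin, Nat.card_fin]
  rw [hX] at hcount
  have hset : {c : Fin n → Fin M₁ × Fin M₂ | ¬ AlgebraicIndependent F fun i =>
      Complex.exp (z i * (x i (c i).1 * y i (c i).2))} =
      {k : Fin n → Fin M₁ × Fin M₂ | (∀ i, k i ∈ Set.univ) ∧
        ¬ AlgebraicIndependent F fun i => f (Fin.val i) (k i)} := by
    ext c
    simp only [Set.mem_ofPred_eq, Set.mem_univ, implies_true, true_and, hfi]
  rw [hset]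
  rcases Nat.eq_zero_or_pos n with hn | hn
  · subst hn
    have h5 : Set.ncard {k : Fin 0 → Fin M₁ × Fin M₂ | (∀ i, k i ∈ Set.univ) ∧
        ¬ AlgebraicIndependent F fun i => f (Fin.val i) (k i)} = 0 := by
      have := hcount
      simpa using this
    rw [h5]
    simp
  have h6 : (Set.ncard {k : Fin n → Fin M₁ × Fin M₂ | (∀ i, k i ∈ Set.univ) ∧
        ¬ AlgebraicIndependent F fun i => f (Fin.val i) (k i)} : ℝ) ≤
      ((n * (M₁ * M₂) ^ (n - 1) * ⌊B0⌋₊ : ℕ) : ℝ) := by exact_mod_cast hcount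
  refine h6.trans ?_
  push_cast
  have h7 : ((⌊B0⌋₊ : ℕ) : ℝ) ≤ 2 * h * (M₁ * M₂) / P := (Nat.floor_le hB0nn).trans hB0le
  have h8 : ((M₁ : ℝ) * M₂) ^ n = ((M₁ : ℝ) * M₂) ^ (n - 1) * (M₁ * M₂) := by
    rw [← pow_succ, Nat.sub_add_cancel hn]
  calc (n : ℝ) * ((M₁ : ℝ) * M₂) ^ (n - 1) * (⌊B0⌋₊ : ℕ)
      ≤ (n : ℝ) * ((M₁ : ℝ) * M₂) ^ (n - 1) * (2 * h * (M₁ * M₂) / P) :=
        mul_le_mul_of_nonneg_left h7 (by positivity)
    _ = 2 * h * n * ((M₁ : ℝ) * M₂) ^ n / P := by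
        rw [h8]
        ring

/-- The inequality of Q1 at almost all `n`-tuples of cells, also relative to a point `r` where it is
known. -/
theorem grid_q1 (n l : ℕ) : ∃ h : ℕ, 1 ≤ h ∧ ∀ (M₁ M₂ M : ℕ) (x : Fin n → Fin M₁ → ℂ)
    (y : Fin n → Fin M₂ → ℂ) (z : Fin n → ℂ), 1 ≤ M → M ≤ M₁ → M ≤ M₂ → (∀ i, z i ≠ 0) →
      (∀ i, Sep (x i)) → (∀ i, Sep (y i)) → ∀ r : Fin l → ℂ, Ineq r →
      (Set.ncard {c : Fin n → Fin M₁ × Fin M₂ |
        ¬ (dd (fun i => Complex.exp (z i * (x i (c i).1 * y i (c i).2))) = n ∧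
          Ineq (fun i => z i * (x i (c i).1 * y i (c i).2)) ∧
          Ineq (Sum.elim r fun i => z i * (x i (c i).1 * y i (c i).2)))} : ℝ) ≤
        2 * h * n * ((M₁ : ℝ) * M₂) ^ n / (M : ℝ) ^ (1 / (h : ℝ)) := by
  obtain ⟨h, hh, H⟩ := grid_final n (1 + 2 * l)
  refine ⟨h, hh, fun M₁ M₂ M x y z hM hM1 hM2 hz hx hy r hr =>
    le_trans ?_ (H (FFr r) (trdeg_FFr l r) M₁ M₂ M x y z hM hM1 hM2 hz hx hy)⟩
  have hsub : {c : Fin n → Fin M₁ × Fin M₂ |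
        ¬ (dd (fun i => Complex.exp (z i * (x i (c i).1 * y i (c i).2))) = n ∧
          Ineq (fun i => z i * (x i (c i).1 * y i (c i).2)) ∧
          Ineq (Sum.elim r fun i => z i * (x i (c i).1 * y i (c i).2)))} ⊆
      {c : Fin n → Fin M₁ × Fin M₂ | ¬ AlgebraicIndependent (FFr r) fun i =>
          Complex.exp (z i * (x i (c i).1 * y i (c i).2))} :=
    fun c hc hi => hc (good_of_indep r hr
      (fun i => z i * (x i (c i).1 * y i (c i).2)) hi)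
  exact_mod_cast Set.ncard_le_ncard hsub (Set.toFinite _)

end LTG
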