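import Pool.Agent.LTG.Log
import Pool.Agent.LTD.Ltd

set_option autoImplicit false

namespace LTG

open LTD Finset

theorem kst_aux (h M₁ M₂ : ℕ) (hh : 1 ≤ h) (S : Finset (Fin M₁ × Fin M₂))
    (hS : ∀ (a : Fin h → Fin M₁) (b : Fin h → Fin M₂), Function.Injective a →
      Function.Injective b → ∃ i j, (a i, b j) ∉ S) :
    ∑ i : Fin M₁, ((univ.filter fun j => (i, j) ∈ S).card + 1 - h) ^ h ≤ (h - 1) * M₂ ^ h := by
  classical
  set row : Fin M₁ → Finset (Fin M₂) := fun i => univ.filter fun j => (i, j) ∈ S with hrow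
  have h1 : ∑ i : Fin M₁, (powersetCard h (row i)).card ≤ (h - 1) * M₂.choose h := by
    have h2 : ∀ i, (powersetCard h (row i)).card =
        ((powersetCard h (univ : Finset (Fin M₂))).filter fun T => T ⊆ row i).card := by
      intro i
      congr 1
      ext T
      rw [mem_powersetCard, mem_filter, mem_powersetCard]
      constructor
      · rintro ⟨h3, h4⟩
        exact ⟨⟨subset_univ _, h4⟩, h3⟩
      · rintro ⟨⟨-, h4⟩, h3⟩
        exact ⟨h3, h4⟩
    have h3 : ∑ i : Fin M₁, (powersetCard h (row i)).card =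
        ∑ T ∈ powersetCard h (univ : Finset (Fin M₂)),
          ((univ : Finset (Fin M₁)).filter fun i => T ⊆ row i).card := by
      simp only [h2, card_filter]
      exact sum_comm
    rw [h3]
    have h4 : ∀ T ∈ powersetCard h (univ : Finset (Fin M₂)),
        ((univ : Finset (Fin M₁)).filter fun i => T ⊆ row i).card ≤ h - 1 := by
      intro T hT
      by_contra hcon
      push Not at hcon
      have h5 : h ≤ ((univ : Finset (Fin M₁)).filter fun i => T ⊆ row i).card := by omega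
      obtain ⟨U, hU, hUc⟩ := exists_subset_card_eq h5
      have hTc : T.card = h := (mem_powersetCard.mp hT).2
      let a : Fin h → Fin M₁ := fun i => (U.equivFinOfCardEq hUc).symm i
      let b : Fin h → Fin M₂ := fun i => (T.equivFinOfCardEq hTc).symm i
      have ha : Function.Injective a := fun i j hij =>
        (U.equivFinOfCardEq hUc).symm.injective (Subtype.ext hij)
      have hb : Function.Injective b := fun i j hij =>
        (T.equivFinOfCardEq hTc).symm.injective (Subtype.ext hij)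
      obtain ⟨i, j, hij⟩ := hS a b ha hb
      apply hij
      have h6 : a i ∈ U := ((U.equivFinOfCardEq hUc).symm i).2
      have h7 : b j ∈ T := ((T.equivFinOfCardEq hTc).symm j).2
      have h8 := (mem_filter.mp (hU h6)).2 h7
      exact (mem_filter.mp h8).2
    refine (sum_le_sum h4).trans ?_
    rw [sum_const, card_powersetCard, card_univ, Fintype.card_fin, smul_eq_mul, mul_comm]
  have h2 : ∀ i, ((row i).card + 1 - h) ^ h ≤ h.factorial * (powersetCard h (row i)).card := by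
    intro i
    rw [card_powersetCard, ← Nat.descFactorial_eq_factorial_mul_choose]
    exact Nat.pow_sub_le_descFactorial _ _
  calc ∑ i : Fin M₁, ((row i).card + 1 - h) ^ h
      ≤ ∑ i : Fin M₁, h.factorial * (powersetCard h (row i)).card := sum_le_sum fun i _ => h2 i
    _ = h.factorial * ∑ i : Fin M₁, (powersetCard h (row i)).card := by rw [mul_sum]
    _ ≤ h.factorial * ((h - 1) * M₂.choose h) := Nat.mul_le_mul_left _ h1
    _ = (h - 1) * (h.factorial * M₂.choose h) := by ring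
    _ ≤ (h - 1) * M₂ ^ h := by
        rw [← Nat.descFactorial_eq_factorial_mul_choose]
        exact Nat.mul_le_mul_left _ (Nat.descFactorial_le_pow _ _)

/-- Kővári–Sós–Turán for subsets of a grid without `h × h` subgrid. -/
theorem kst2 (h M₁ M₂ : ℕ) (hh : 1 ≤ h) (hM : 1 ≤ M₁) (S : Finset (Fin M₁ × Fin M₂))
    (hS : ∀ (a : Fin h → Fin M₁) (b : Fin h → Fin M₂), Function.Injective a →
      Function.Injective b → ∃ i j, (a i, b j) ∉ S) :
    (S.card : ℝ) ≤ h * M₁ + h * M₂ * (M₁ : ℝ) ^ (1 - 1 / (h : ℝ)) := by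
  classical
  have haux := kst_aux h M₁ M₂ hh S hS
  set d : Fin M₁ → ℕ := fun i => (univ.filter fun j => (i, j) ∈ S).card with hd
  set e : Fin M₁ → ℕ := fun i => d i + 1 - h with he
  have hcard : S.card = ∑ i, d i := by
    rw [card_eq_sum_card_fiberwise (f := Prod.fst) (t := univ) (fun _ _ => mem_univ _)]
    refine sum_congr rfl fun i _ => ?_
    refine card_nbij' (fun p => p.2) (fun j => (i, j)) ?_ ?_ ?_ ?_
    · intro p hp
      have hp1 := mem_filter.mp hp
      refine mem_filter.mpr ⟨mem_univ _, ?_⟩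
      have : (i, p.2) = p := by rw [← hp1.2]
      rw [this]
      exact hp1.1
    · intro j hj
      exact mem_filter.mpr ⟨(mem_filter.mp hj).2, rfl⟩
    · intro p hp
      have hp1 := mem_filter.mp hp
      rw [← hp1.2]
    · intro j hj
      rfl
  have hde : S.card ≤ ∑ i, e i + h * M₁ := by
    rw [hcard]
    calc ∑ i, d i ≤ ∑ i : Fin M₁, (e i + h) := sum_le_sum fun i _ => by
          simp only [he]; omega
      _ = ∑ i, e i + h * M₁ := by
          rw [sum_add_distrib, sum_const, card_univ, Fintype.card_fin, smul_eq_mul, mul_comm]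
  have hM0 : (0 : ℝ) < M₁ := by exact_mod_cast hM
  have hh0 : (0 : ℝ) < h := by exact_mod_cast hh
  have hpow : ((∑ i, e i : ℕ) : ℝ) ^ h ≤ (h * M₂ * (M₁ : ℝ) ^ (1 - 1 / (h : ℝ))) ^ h := by
    have h1 : (∑ i, (e i : ℝ)) ^ h ≤ (∑ i, (e i : ℝ) ^ h) * (M₁ : ℝ) ^ (h - 1) := by
      have h0 := pow_sum_le_card_mul_sum_pow (s := (univ : Finset (Fin M₁)))
        (f := fun i => (e i : ℝ)) (fun i _ => Nat.cast_nonneg _) (h - 1)
      rw [Nat.sub_add_cancel hh, card_univ, Fintype.card_fin] at h0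
      linarith
    have h2 : (∑ i, (e i : ℝ) ^ h) ≤ ((h - 1 : ℕ) : ℝ) * (M₂ : ℝ) ^ h := by
      have : ((∑ i, e i ^ h : ℕ) : ℝ) ≤ (((h - 1) * M₂ ^ h : ℕ) : ℝ) := by exact_mod_cast haux
      push_cast at this
      exact this
    have h3 : ((M₁ : ℝ) ^ (1 - 1 / (h : ℝ))) ^ h = (M₁ : ℝ) ^ (h - 1) := by
      rw [← Real.rpow_natCast, ← Real.rpow_natCast, ← Real.rpow_mul hM0.le]
      congr 1
      rw [Nat.cast_sub hh]
      field_simp
      push_cast
      ring
    have h4 : ((h - 1 : ℕ) : ℝ) ≤ (h : ℝ) ^ h := by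
      have h5 : h - 1 ≤ h ^ h := by
        calc h - 1 ≤ h := Nat.sub_le _ _
          _ = h ^ 1 := (pow_one _).symm
          _ ≤ h ^ h := Nat.pow_le_pow_right hh hh
      exact_mod_cast h5
    rw [mul_pow, mul_pow, h3]
    calc ((∑ i, e i : ℕ) : ℝ) ^ h = (∑ i, (e i : ℝ)) ^ h := by push_cast; rfl
      _ ≤ (∑ i, (e i : ℝ) ^ h) * (M₁ : ℝ) ^ (h - 1) := h1
      _ ≤ ((h - 1 : ℕ) : ℝ) * (M₂ : ℝ) ^ h * (M₁ : ℝ) ^ (h - 1) :=
          mul_le_mul_of_nonneg_right h2 (by positivity)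
      _ ≤ (h : ℝ) ^ h * (M₂ : ℝ) ^ h * (M₁ : ℝ) ^ (h - 1) := by
          refine mul_le_mul_of_nonneg_right ?_ (by positivity)
          exact mul_le_mul_of_nonneg_right h4 (by positivity)
  have hsum : ((∑ i, e i : ℕ) : ℝ) ≤ h * M₂ * (M₁ : ℝ) ^ (1 - 1 / (h : ℝ)) := by
    have hne : h ≠ 0 := by omega
    exact le_of_pow_le_pow_left₀ hne (by positivity) hpow
  calc (S.card : ℝ) ≤ ((∑ i, e i + h * M₁ : ℕ) : ℝ) := by exact_mod_cast hde
    _ = ((∑ i, e i : ℕ) : ℝ) + h * M₁ := by push_cast; ring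
    _ ≤ h * M₁ + h * M₂ * (M₁ : ℝ) ^ (1 - 1 / (h : ℝ)) := by linarith

theorem sep_comp {m M : ℕ} {x : Fin M → ℂ} (hx : Sep x) (a : Fin m → Fin M)
    (ha : Function.Injective a) : Sep fun i => x (a i) := by
  classical
  obtain ⟨C, hC, h⟩ := hx
  refine ⟨C, hC, fun l hl => ?_⟩
  set l' : Fin M → ℤ := Function.extend a l 0 with hl'
  have happ : ∀ i, l' (a i) = l i := fun i => ha.extend_apply _ _ _
  have hzero : ∀ j, j ∉ Set.range a → l' j = 0 := fun j hj =>
    Function.extend_apply' _ _ _ (fun ⟨i, hi⟩ => hj ⟨i, hi⟩)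
  have hl'0 : l' ≠ 0 := by
    intro h0
    apply hl
    funext i
    have := congrFun h0 (a i)
    rw [happ] at this
    exact this
  have h1 := h l' hl'0
  have h2 : ∑ i, |((l i : ℤ) : ℝ)| = ∑ j, |((l' j : ℤ) : ℝ)| := by
    refine sum_of_injOn a ha.injOn (fun _ _ => mem_coe.mpr (mem_univ _)) ?_ ?_
    · intro j _ hj
      rw [hzero j (by simpa using hj)]
      simp
    · intro i _
      rw [happ]
  have h3 : ∑ i, (l i : ℂ) * x (a i) = ∑ j, (l' j : ℂ) * x j := by
    refine sum_of_injOn a ha.injOn (fun _ _ => mem_coe.mpr (mem_univ _)) ?_ ?_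
    · intro j _ hj
      rw [hzero j (by simpa using hj)]
      simp
    · intro i _
      rw [happ]
  rw [h2, h3]
  exact h1

theorem grid_field (t : ℕ) : ∃ h : ℕ, 1 ≤ h ∧ ∀ F : IntermediateField ℚ ℂ,
    Algebra.trdeg ℚ F ≤ (t : Cardinal) → ∀ (M₁ M₂ : ℕ) (x : Fin M₁ → ℂ) (y : Fin M₂ → ℂ),
      1 ≤ M₁ → Sep x → Sep y →
        (Set.ncard {c : Fin M₁ × Fin M₂ | Complex.exp (x c.1 * y c.2) ∈ F} : ℝ) ≤
          h * M₁ + h * M₂ * (M₁ : ℝ) ^ (1 - 1 / (h : ℝ)) := by
  classical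
  obtain ⟨h, hh, hltd⟩ := ltd t
  refine ⟨h, hh, fun F hF M₁ M₂ x y hM hx hy => ?_⟩
  set S : Finset (Fin M₁ × Fin M₂) := univ.filter fun c => Complex.exp (x c.1 * y c.2) ∈ F
    with hSdef
  have hSset : {c : Fin M₁ × Fin M₂ | Complex.exp (x c.1 * y c.2) ∈ F} = (S : Set _) := by
    ext c
    simp [hSdef]
  rw [hSset, Set.ncard_coe_finset]
  refine kst2 h M₁ M₂ hh hM S fun a b ha hb => ?_
  obtain ⟨i, j, hij⟩ := hltd F hF _ _ (sep_comp hx a ha) (sep_comp hy b hb)
  exact ⟨i, j, fun hc => hij (mem_filter.mp hc).2⟩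

/-- The hypothesis on the two factors: `Sep`, or `ℚ`-linearly independent algebraic numbers, or
`ℚ`-linearly independent logarithms of algebraic numbers. -/
theorem sep_of {M : ℕ} (x : Fin M → ℂ) (hx : Sep x ∨ LinearIndependent ℚ x ∧
    ((∀ i, IsAlgebraic ℚ (x i)) ∨ ∀ i, IsAlgebraic ℚ (Complex.exp (x i)))) : Sep x := by
  rcases hx with h | ⟨h, h1 | h2⟩
  · exact h
  · exact sep_alg x h1 h
  · exact sep_log x h2 h

end LTG
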