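import Pool.Agent.LTD.SepA

set_option autoImplicit false

namespace LTG

open LTD Finset

/-- Liouville: a tuple of algebraic numbers has a gap linear in the size. -/
theorem gap_alg_pt {m : ℕ} (w : Fin m → ℂ) (hw : ∀ i, IsAlgebraic ℚ (w i)) :
    ∃ c : ℝ, 0 ≤ c ∧ ∀ q : ℝ, 1 ≤ q → Gap w q (c * q) := by
  have h1 : ∀ i, ∃ P : Polynomial ℤ, P ≠ 0 ∧ Polynomial.aeval (w i) P = 0 := fun i =>
    (IsFractionRing.isAlgebraic_iff ℤ ℚ ℂ).mpr (hw i)
  choose P hP0 hP using h1
  have hJ : ∀ i, 1 ≤ (P i).natDegree := by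
    intro i
    by_contra h
    have h0 : (P i).natDegree = 0 := by omega
    obtain ⟨c, hc⟩ := Polynomial.natDegree_eq_zero.mp h0
    have h2 := hP i
    rw [← hc] at h2
    simp at h2
    apply hP0 i
    rw [← hc, h2, Polynomial.C_0]
  let θ : Empty → ℂ := fun e => e.elim
  let c : Fin m → ℕ → MvPolynomial Empty ℤ := fun i j => MvPolynomial.C ((P i).coeff j)
  set p : ℝ := 1 + ∑ i, (((P i).natDegree : ℝ) + ∑ j ∈ range ((P i).natDegree + 1),
    |(((P i).coeff j : ℤ) : ℝ)|) with hp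
  have hterm0 : ∀ i, 0 ≤ (((P i).natDegree : ℝ) + ∑ j ∈ range ((P i).natDegree + 1),
    |(((P i).coeff j : ℤ) : ℝ)|) := by
    intro i
    have : 0 ≤ ∑ j ∈ range ((P i).natDegree + 1), |(((P i).coeff j : ℤ) : ℝ)| :=
      Finset.sum_nonneg fun j _ => abs_nonneg _
    positivity
  have hterm : ∀ i, (((P i).natDegree : ℝ) + ∑ j ∈ range ((P i).natDegree + 1),
    |(((P i).coeff j : ℤ) : ℝ)|) ≤ p - 1 := by
    intro i
    have := Finset.single_le_sum (fun j _ => hterm0 j) (Finset.mem_univ i)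
    rw [hp]
    linarith
  have hp1 : 1 ≤ p := by
    have : 0 ≤ ∑ i, (((P i).natDegree : ℝ) + ∑ j ∈ range ((P i).natDegree + 1),
      |(((P i).coeff j : ℤ) : ℝ)|) := Finset.sum_nonneg fun j _ => hterm0 j
    rw [hp]
    linarith
  set Θ : ℝ := 1 + ∑ i, ‖w i‖ with hΘ
  have hΘ1 : 1 ≤ Θ := by
    have : 0 ≤ ∑ i, ‖w i‖ := Finset.sum_nonneg fun j _ => norm_nonneg _
    rw [hΘ]
    linarith
  have hwΘ : ∀ i, ‖w i‖ ≤ Θ := by
    intro i
    have := Finset.single_le_sum (f := fun i => ‖w i‖) (fun j _ => norm_nonneg (w j))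
      (Finset.mem_univ i)
    rw [hΘ]
    linarith
  have hlog : 0 ≤ Real.log Θ := Real.log_nonneg hΘ1
  refine ⟨(m : ℝ) * (6 * p ^ 2 * (4 * p ^ 2) ^ m * (1 + Real.log Θ)), by positivity, ?_⟩
  intro q hq1
  have hev : ∀ i j, ev θ (c i j) = (((P i).coeff j : ℤ) : ℂ) := by
    intro i j
    simp [ev, c]
  have hgap := gap_many (σ := Empty) (τ := Fin m) (θ := θ) (a := w) (Θ := Θ)
    (s := (4 * p ^ 2) ^ (Fintype.card (Fin m)) * q) (g := 0) (p := p)
    (gap_empty θ _ _ le_rfl) le_rfl hΘ1 (fun i => i.elim) hwΘ hp1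
    (fun i => (P i).natDegree) c hJ
    (fun i => by
      have h4 : 0 ≤ ∑ j ∈ range ((P i).natDegree + 1), |(((P i).coeff j : ℤ) : ℝ)| :=
        Finset.sum_nonneg fun j _ => abs_nonneg _
      have := hterm i
      linarith)
    (fun i => by
      rw [hev]
      have : (P i).leadingCoeff ≠ 0 := Polynomial.leadingCoeff_ne_zero.mpr (hP0 i)
      exact_mod_cast this)
    (fun i => by
      have h5 := hP i
      rw [Polynomial.aeval_eq_sum_range] at h5
      rw [← h5]
      refine Finset.sum_congr rfl fun j _ => ?_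
      rw [hev]
      simp)
    (fun i => by
      have h6 : ∑ j ∈ range ((P i).natDegree + 1), len (c i j) =
        ∑ j ∈ range ((P i).natDegree + 1), |(((P i).coeff j : ℤ) : ℝ)| :=
        Finset.sum_congr rfl fun j _ => len_C _
      rw [h6]
      have h7 := hterm i
      have h8 : (0 : ℝ) ≤ ((P i).natDegree : ℝ) := Nat.cast_nonneg _
      have h9 := Real.add_one_le_exp p
      linarith)
    (fun i j _ => by
      have : (c i j).totalDegree = 0 := MvPolynomial.totalDegree_C _
      rw [this]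
      simp
      linarith)
    q hq1 le_rfl
  have hgap2 := hgap.rename (Sum.inr : Fin m → Empty ⊕ Fin m)
  have hcomp : (Sum.elim θ w) ∘ (Sum.inr : Fin m → Empty ⊕ Fin m) = w := by
    funext i; rfl
  rw [hcomp] at hgap2
  refine hgap2.mono le_rfl (le_of_eq ?_)
  rw [Fintype.card_fin]
  ring

/-- Logarithms of algebraic numbers which are linearly independent over `ℚ` satisfy `Sep`
(Liouville's inequality; no Baker). -/
theorem sep_log {m : ℕ} (x : Fin m → ℂ) (hx : ∀ i, IsAlgebraic ℚ (Complex.exp (x i)))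
    (hli : LinearIndependent ℚ x) : Sep x := by
  set w : Fin m → ℂ := fun i => Complex.exp (x i) with hw
  obtain ⟨c, hc0, hgap⟩ := gap_alg_pt w hx
  set A : ℝ := ∑ i, |(x i).re| with hA
  have hA0 : 0 ≤ A := Finset.sum_nonneg fun i _ => abs_nonneg _
  have hAi : ∀ i, |(x i).re| ≤ A := fun i =>
    Finset.single_le_sum (f := fun i => |(x i).re|) (fun _ _ => abs_nonneg _) (Finset.mem_univ i)
  refine ⟨2 * c + A + 1, by linarith, fun l hl => ?_⟩
  set q : ℝ := ∑ i, |((l i : ℤ) : ℝ)| with hq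
  have hq1 : 1 ≤ q := by
    obtain ⟨i, hi⟩ := Function.ne_iff.mp hl
    have h3 : (1 : ℝ) ≤ |((l i : ℤ) : ℝ)| := by
      have : (1 : ℤ) ≤ |l i| := Int.one_le_abs hi
      exact_mod_cast this
    have := Finset.single_le_sum (f := fun i => |((l i : ℤ) : ℝ)|) (fun j _ => abs_nonneg _)
      (Finset.mem_univ i)
    rw [hq]
    linarith
  set Λ : ℂ := ∑ i, (l i : ℂ) * x i with hΛ
  have hΛ0 : Λ ≠ 0 := by
    intro h0
    apply hl
    have h10 := Fintype.linearIndependent_iff.mp hli (fun i => (l i : ℚ)) (by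
      rw [← h0, hΛ]
      refine Finset.sum_congr rfl fun i _ => ?_
      rw [Algebra.smul_def]
      simp)
    funext i
    have := h10 i
    simpa using this
  -- trivial if `‖Λ‖ > 1`
  by_cases hbig : 1 < ‖Λ‖
  · refine le_trans ?_ hbig.le
    rw [Real.exp_le_one_iff]
    have : 0 ≤ (2 * c + A + 1) * q := by positivity
    linarith
  push Not at hbig
  -- positive and negative parts
  set a : Fin m → ℕ := fun i => (l i).toNat with ha
  set b : Fin m → ℕ := fun i => (-(l i)).toNat with hb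
  have hab : ∀ i, ((a i : ℤ)) - (b i : ℤ) = l i := by
    intro i
    simp only [ha, hb]
    omega
  have hab' : ∀ i, (a i : ℝ) + (b i : ℝ) = |((l i : ℤ) : ℝ)| := by
    intro i
    have h1 : ((a i : ℤ)) + (b i : ℤ) = |l i| := by
      simp only [ha, hb]
      rcases le_total 0 (l i) with h | h
      · rw [abs_of_nonneg h]
        omega
      · rw [abs_of_nonpos h]
        omega
    have h2 : (((a i : ℤ) + (b i : ℤ) : ℤ) : ℝ) = ((|l i| : ℤ) : ℝ) := by rw [h1]
    push_cast at h2
    exact h2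
  have hasum : (∑ i, (a i : ℝ)) ≤ q := by
    rw [hq]
    refine Finset.sum_le_sum fun i _ => ?_
    have h1 := hab' i
    have h2 : (0 : ℝ) ≤ (b i : ℝ) := Nat.cast_nonneg _
    linarith
  have hbsum : (∑ i, (b i : ℝ)) ≤ q := by
    rw [hq]
    refine Finset.sum_le_sum fun i _ => ?_
    have h1 := hab' i
    have h2 : (0 : ℝ) ≤ (a i : ℝ) := Nat.cast_nonneg _
    linarith
  have hX : ∀ i, ev w (MvPolynomial.X i) = w i := fun i => by
    rw [ev, MvPolynomial.coe_eval₂Hom, MvPolynomial.eval₂_X]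
  have hmon : ∀ e : Fin m → ℕ, ev w (∏ i, (MvPolynomial.X i : MvPolynomial (Fin m) ℤ) ^ e i) =
      Complex.exp (∑ i, (e i : ℂ) * x i) := by
    intro e
    rw [map_prod, Complex.exp_sum]
    refine Finset.prod_congr rfl fun i _ => ?_
    rw [map_pow, hX, hw, ← Complex.exp_nat_mul]
  have hmonlen : ∀ e : Fin m → ℕ,
      len (∏ i, (MvPolynomial.X i : MvPolynomial (Fin m) ℤ) ^ e i) ≤ 1 := by
    intro e
    refine (len_prod _ _).trans ?_
    refine Finset.prod_le_one (fun i _ => len_nonneg _) fun i _ => ?_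
    refine (len_pow _ _).trans ?_
    rw [len_X, one_pow]
  have hmondeg : ∀ e : Fin m → ℕ,
      ((∏ i, (MvPolynomial.X i : MvPolynomial (Fin m) ℤ) ^ e i).totalDegree : ℝ) ≤
        ∑ i, (e i : ℝ) := by
    intro e
    have h1 : (∏ i, (MvPolynomial.X i : MvPolynomial (Fin m) ℤ) ^ e i).totalDegree ≤
        ∑ i, e i := by
      refine (MvPolynomial.totalDegree_finsetProd _ _).trans ?_
      refine Finset.sum_le_sum fun i _ => ?_
      refine (MvPolynomial.totalDegree_pow _ _).trans ?_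
      rw [MvPolynomial.totalDegree_X, mul_one]
    calc ((∏ i, (MvPolynomial.X i : MvPolynomial (Fin m) ℤ) ^ e i).totalDegree : ℝ)
        ≤ ((∑ i, e i : ℕ) : ℝ) := by exact_mod_cast h1
      _ = ∑ i, (e i : ℝ) := by push_cast; rfl
  set Q : MvPolynomial (Fin m) ℤ := ∏ i, (MvPolynomial.X i : MvPolynomial (Fin m) ℤ) ^ a i +
    -(∏ i, (MvPolynomial.X i : MvPolynomial (Fin m) ℤ) ^ b i) with hQ
  have hQlen : len Q ≤ 2 := by
    refine (len_add _ _).trans ?_
    rw [len_neg]
    linarith [hmonlen a, hmonlen b]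
  have hQdeg : (Q.totalDegree : ℝ) ≤ 2 * q := by
    have h1 : Q.totalDegree ≤ max
        (∏ i, (MvPolynomial.X i : MvPolynomial (Fin m) ℤ) ^ a i).totalDegree
        (∏ i, (MvPolynomial.X i : MvPolynomial (Fin m) ℤ) ^ b i).totalDegree := by
      refine (MvPolynomial.totalDegree_add _ _).trans ?_
      rw [MvPolynomial.totalDegree_neg]
    have h2 : (Q.totalDegree : ℝ) ≤ ((max
        (∏ i, (MvPolynomial.X i : MvPolynomial (Fin m) ℤ) ^ a i).totalDegree
        (∏ i, (MvPolynomial.X i : MvPolynomial (Fin m) ℤ) ^ b i).totalDegree : ℕ) : ℝ) := by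
      exact_mod_cast h1
    refine h2.trans ?_
    rw [Nat.cast_max]
    refine max_le ?_ ?_
    · have := hmondeg a
      linarith
    · have := hmondeg b
      linarith
  have hsz : Sz Q (2 * q) := by
    refine ⟨hQdeg, hQlen.trans ?_⟩
    have := Real.add_one_le_exp (2 * q)
    linarith
  have hevQ : ev w Q = Complex.exp (∑ i, (b i : ℂ) * x i) * (Complex.exp Λ - 1) := by
    rw [hQ, map_add, map_neg, hmon, hmon, mul_sub, mul_one, ← Complex.exp_add]
    have h1 : ∑ i, (b i : ℂ) * x i + Λ = ∑ i, (a i : ℂ) * x i := by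
      rw [hΛ, ← Finset.sum_add_distrib]
      refine Finset.sum_congr rfl fun i _ => ?_
      have h2 : (((a i : ℤ) - (b i : ℤ) : ℤ) : ℂ) = (l i : ℂ) := by rw [hab i]
      push_cast at h2
      rw [← h2]
      ring
    rw [h1]
    ring
  have hexpB : ‖Complex.exp (∑ i, (b i : ℂ) * x i)‖ ≤ Real.exp (A * q) := by
    rw [Complex.norm_exp]
    apply Real.exp_le_exp.mpr
    rw [Complex.re_sum]
    have h1 : ∑ i, ((b i : ℂ) * x i).re ≤ ∑ i, (b i : ℝ) * A := by
      refine Finset.sum_le_sum fun i _ => ?_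
      have h2 : ((b i : ℂ) * x i).re = (b i : ℝ) * (x i).re := by
        rw [Complex.mul_re]
        simp
      rw [h2]
      exact mul_le_mul_of_nonneg_left ((le_abs_self _).trans (hAi i)) (Nat.cast_nonneg _)
    refine h1.trans ?_
    rw [← Finset.sum_mul, mul_comm]
    exact mul_le_mul_of_nonneg_left hbsum hA0
  rcases hgap (2 * q) (by linarith) Q hsz with h0 | h0
  · -- `exp Λ = 1`
    exfalso
    rw [hevQ] at h0
    rcases mul_eq_zero.mp h0 with h1 | h1
    · exact Complex.exp_ne_zero _ h1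
    · have h2 : Complex.exp Λ = 1 := sub_eq_zero.mp h1
      obtain ⟨n, hn⟩ := Complex.exp_eq_one_iff.mp h2
      have hn0 : n ≠ 0 := by
        rintro rfl
        apply hΛ0
        rw [hn]
        simp
      have h3 : (1 : ℝ) ≤ |(n : ℝ)| := by
        have : (1 : ℤ) ≤ |n| := Int.one_le_abs hn0
        exact_mod_cast this
      have h4 : ‖Λ‖ = |(n : ℝ)| * (2 * Real.pi) := by
        rw [hn, norm_mul, norm_mul, norm_mul, Complex.norm_I, Complex.norm_intCast]
        simp [abs_of_pos Real.pi_pos]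
      have h5 := Real.pi_gt_three
      nlinarith
  · have h1 : ‖Complex.exp Λ - 1‖ ≤ 2 * ‖Λ‖ := Complex.norm_exp_sub_one_le hbig
    rw [hevQ, norm_mul] at h0
    have h2 : Real.exp (-(c * (2 * q))) ≤ Real.exp (A * q) * (2 * ‖Λ‖) :=
      h0.trans (mul_le_mul hexpB h1 (norm_nonneg _) (Real.exp_pos _).le)
    have h3 : Real.exp (-((2 * c + A + 1) * q)) * 2 ≤ Real.exp (-(c * (2 * q))) *
        Real.exp (-(A * q)) := by
      have h4 : (2 : ℝ) ≤ Real.exp q := by
        have := Real.add_one_le_exp q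
        linarith
      calc Real.exp (-((2 * c + A + 1) * q)) * 2
          ≤ Real.exp (-((2 * c + A + 1) * q)) * Real.exp q :=
            mul_le_mul_of_nonneg_left h4 (Real.exp_pos _).le
        _ = Real.exp (-(c * (2 * q))) * Real.exp (-(A * q)) := by
            rw [← Real.exp_add, ← Real.exp_add]
            congr 1
            ring
    have h5 : Real.exp (-(c * (2 * q))) * Real.exp (-(A * q)) ≤ 2 * ‖Λ‖ := by
      calc Real.exp (-(c * (2 * q))) * Real.exp (-(A * q))
          ≤ Real.exp (A * q) * (2 * ‖Λ‖) * Real.exp (-(A * q)) :=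
            mul_le_mul_of_nonneg_right h2 (Real.exp_pos _).le
        _ = 2 * ‖Λ‖ * (Real.exp (A * q) * Real.exp (-(A * q))) := by ring
        _ = 2 * ‖Λ‖ := by
            rw [← Real.exp_add, add_neg_cancel, Real.exp_zero, mul_one]
    linarith

end LTG
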